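import Pool.Agent.W172.WL.Stm

/-!
Project WL: digit facts.
-/

set_option autoImplicit false

namespace Pool.Agent.W308.WL.Dig

open Pool.Agent.W172.WL

theorem floor_fract (b : ℕ) (y : ℝ) (hy : 0 ≤ y) (t : ℕ) :
    ⌊(b : ℝ) ^ t * y⌋₊ = ⌊(b : ℝ) ^ t * Int.fract y⌋₊ + b ^ t * ⌊y⌋₊ := by
  have h1 : y = Int.fract y + (⌊y⌋₊ : ℝ) := by
    have h2 := Int.fract_add_floor y
    have h3 : ((⌊y⌋₊ : ℕ) : ℝ) = ((⌊y⌋ : ℤ) : ℝ) := natCast_floor_eq_intCast_floor hy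
    rw [h3]
    exact h2.symm
  have h4 : (b : ℝ) ^ t * y = (b : ℝ) ^ t * Int.fract y + ((b ^ t * ⌊y⌋₊ : ℕ) : ℝ) := by
    conv_lhs => rw [h1]
    push_cast
    ring
  rw [h4, Nat.floor_add_natCast (mul_nonneg (by positivity) (Int.fract_nonneg y))]

theorem mod_fract (b : ℕ) (y : ℝ) (hy : 0 ≤ y) (t : ℕ) (ht : 1 ≤ t) :
    ⌊(b : ℝ) ^ t * y⌋₊ % b = ⌊(b : ℝ) ^ t * Int.fract y⌋₊ % b := by
  rw [floor_fract b y hy t]
  obtain ⟨s, rfl⟩ : ∃ s, t = s + 1 := ⟨t - 1, by omega⟩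
  have : b ^ (s + 1) * ⌊y⌋₊ = b * (b ^ s * ⌊y⌋₊) := by ring
  rw [this, Nat.add_mul_mod_self_left]

theorem floor_low (b : ℕ) (hb : 2 ≤ b) (f : ℝ) (t q : ℕ) (h : t ≤ q) :
    ⌊(b : ℝ) ^ t * f⌋₊ = ⌊(b : ℝ) ^ q * f⌋₊ / b ^ (q - t) := by
  have hb0 : (b : ℝ) ≠ 0 := by
    have : (2 : ℝ) ≤ b := by exact_mod_cast hb
    intro h0
    rw [h0] at this
    norm_num at this
  have h1 : (b : ℝ) ^ t * f = (b : ℝ) ^ q * f / ((b ^ (q - t) : ℕ) : ℝ) := by
    have h2 : (b : ℝ) ^ q = (b : ℝ) ^ t * (b : ℝ) ^ (q - t) := by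
      rw [← pow_add]
      congr 1
      omega
    rw [h2]
    push_cast
    have h3 : (b : ℝ) ^ (q - t) ≠ 0 := pow_ne_zero _ hb0
    field_simp
  rw [h1, Nat.floor_div_natCast]

theorem digeq : S_DIGEQ := by
  intro b hb y y' hy hy' q h t ht1 htq
  rw [mod_fract b y hy t ht1, mod_fract b y' hy' t ht1, floor_low b hb _ t q htq,
    floor_low b hb (Int.fract y') t q htq, h]

theorem diglam : S_DIGLAM := by
  intro b hb y hy q h1 h2
  rw [mod_fract b y hy (q + 1) (by omega), mod_fract b y hy (q + 2) (by omega)] at h1 h2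
  set f := Int.fract y with hf
  have hf0 : 0 ≤ f := Int.fract_nonneg y
  have hbR : (2 : ℝ) ≤ b := by exact_mod_cast hb
  have hb0 : (0 : ℝ) < b := by linarith
  set X := ⌊(b : ℝ) ^ q * f⌋₊ with hX
  set w : ℝ := (b : ℝ) ^ q * f - X with hw
  have hqf : 0 ≤ (b : ℝ) ^ q * f := mul_nonneg (by positivity) hf0
  have hw0 : 0 ≤ w := sub_nonneg.2 (Nat.floor_le hqf)
  have hw1 : w < 1 := by
    have := Nat.lt_floor_add_one ((b : ℝ) ^ q * f)
    rw [← hX] at this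
    linarith
  set D := ⌊(b : ℝ) ^ 2 * w⌋₊ with hD
  have hDw : 0 ≤ (b : ℝ) ^ 2 * w := mul_nonneg (by positivity) hw0
  have hD0 : (D : ℝ) ≤ (b : ℝ) ^ 2 * w := Nat.floor_le hDw
  have hD1 : (b : ℝ) ^ 2 * w < D + 1 := Nat.lt_floor_add_one _
  have hDb : D < b ^ 2 := by
    have h3 : (D : ℝ) < (b : ℝ) ^ 2 := by nlinarith [pow_pos hb0 2]
    exact_mod_cast h3
  have e2 : ⌊(b : ℝ) ^ (q + 2) * f⌋₊ = D + b ^ 2 * X := by
    have h3 : (b : ℝ) ^ (q + 2) * f = (b : ℝ) ^ 2 * w + ((b ^ 2 * X : ℕ) : ℝ) := by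
      rw [hw]
      push_cast
      ring
    rw [h3, Nat.floor_add_natCast hDw]
  have e1 : ⌊(b : ℝ) ^ (q + 1) * f⌋₊ = D / b + b * X := by
    rw [floor_low b hb f (q + 1) (q + 2) (by omega), e2]
    have h3 : q + 2 - (q + 1) = 1 := by omega
    have h4 : D + b ^ 2 * X = D + b * (b * X) := by ring
    rw [h3, pow_one, h4, Nat.add_mul_div_left _ _ (by omega)]
  have hbb : b ^ 2 = b * b := by ring
  have hdiv : D / b < b := by
    rw [Nat.div_lt_iff_lt_mul (by omega)]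
    rw [← hbb]
    exact hDb
  have m2 : (D + b ^ 2 * X) % b = D % b := by
    have h4 : D + b ^ 2 * X = D + b * (b * X) := by ring
    rw [h4, Nat.add_mul_mod_self_left]
  have m1 : (D / b + b * X) % b = D / b := by
    rw [Nat.add_mul_mod_self_left, Nat.mod_eq_of_lt hdiv]
  rw [e1, e2, m1, m2] at h1 h2
  have hDpos : 1 ≤ D := by
    by_contra hc
    have h3 : D = 0 := by omega
    apply h1
    rw [h3]
    simp
  have hDle : D + 2 ≤ b ^ 2 := by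
    by_contra hc
    have h3 : D = b ^ 2 - 1 := by omega
    apply h2
    have h4 : D = b * (b - 1) + (b - 1) := by
      rw [h3, hbb]
      obtain ⟨c, rfl⟩ : ∃ c, b = c + 1 := ⟨b - 1, by omega⟩
      have : (c + 1) * (c + 1) = (c + 1) * c + c + 1 := by ring
      simp only [Nat.add_sub_cancel]
      omega
    have h5 : b - 1 < b := by omega
    constructor
    · rw [h4, Nat.add_comm, Nat.add_mul_div_left _ _ (by omega), Nat.div_eq_of_lt h5, zero_add]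
    · rw [h4, Nat.add_comm, Nat.add_mul_mod_self_left, Nat.mod_eq_of_lt h5]
  have hb2 : (0 : ℝ) < (b : ℝ) ^ 2 := by positivity
  have k1 : 1 / (b : ℝ) ^ 2 ≤ w := by
    rw [div_le_iff₀ hb2, mul_comm]
    have : (1 : ℝ) ≤ D := by exact_mod_cast hDpos
    linarith
  have k2 : 1 / (b : ℝ) ^ 2 ≤ 1 - w := by
    rw [div_le_iff₀ hb2]
    have : (D : ℝ) + 2 ≤ (b : ℝ) ^ 2 := by exact_mod_cast hDle
    nlinarith
  show 1 / (b : ℝ) ^ 2 ≤ max 0 (min w (1 - w))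
  exact le_max_of_le_right (le_min k1 k2)

end Pool.Agent.W308.WL.Dig
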